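import Pool.Agent.TH221.Rough.Family
import Pool.Agent.H805R3.Kk.Skew

set_option autoImplicit false

/-!
Classes of rough families.
-/

open MeasureTheory Set Filter Topology ENNReal NNReal Metric

namespace Pool.Agent.TH221.Rough

open Pool.Agent.H810R3.Tub (Vec Space)
open Pool.Agent.H805R3.Kk (LipPieces OverlapLE SectionMonotone)

variable {d : ℕ}

theorem volume_univ_ne : volume (univ : Set ℝ) ≠ 0 := by
  rw [Real.volume_univ]
  exact ENNReal.top_ne_zero

/-- Continuous families of pairwise disjoint lines in `ℝ³`. -/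
theorem hasGood_disjoint {g : Vec 2 → Vec 2} (hg : ContinuousOn g (ball 0 1))
    (h : ∀ v ∈ ball (0 : Vec 2) 1, ∀ w ∈ ball (0 : Vec 2) 1, v ≠ w →
      ∀ t : ℝ, g v + t • v ≠ g w + t • w) : HasGood 1 univ (ball 0 1) g :=
  HasGood.of_sectionMonotone volume_univ_ne measurableSet_ball
    (Pool.Agent.H805R3.Kk.sectionMonotone_of_disjoint hg h)

/-- Families that are monotone for a nondegenerate alternating form. -/
theorem hasGood_symplectic {J : Vec d →L[ℝ] Vec d} {B : Set (Vec d)} (hB : MeasurableSet B)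
    {g : Vec d → Vec d} (hJ : J.det ≠ 0) (hanti : ∀ v, inner ℝ (J v) v = 0)
    (hm : ∀ v ∈ B, ∀ w ∈ B, 0 ≤ inner ℝ (J (g v - g w)) (v - w)) : HasGood 1 univ B g :=
  HasGood.of_sectionMonotone volume_univ_ne hB
    (Pool.Agent.H805R3.Kk.sectionMonotone_of_symplectic hJ hanti hm)

end Pool.Agent.TH221.Rough
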