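import Pool.Agent.H810R3.Tub.Final
import Pool.Agent.H805R3.Kk.Over

set_option autoImplicit false

/-!
The weighted estimate for a family of lines of bounded overlap that is differentiable within each of
countably many pieces.
-/

open MeasureTheory Set Filter Topology ENNReal NNReal Metric

namespace Pool.Agent.TH221.Rough

open Pool.Agent.H803R2.Kak
open Pool.Agent.H810R3.Tub (Vec ker ker_symm trunc_prod)
open Pool.Agent.H805R3.Kk (lintegral_comp_det_leP)

variable {d : ℕ}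

/-- Weighted Hölder inequality with a density. -/
theorem holder_ww {α : Type*} [MeasurableSpace α] (ν : Measure α) {r : ℝ} (hr : 0 < r)
    {w f : α → ℝ≥0∞} (hw : AEMeasurable w ν) (hf : AEMeasurable f ν) (h0 : ∀ a, w a ≠ 0)
    (h1 : ∀ a, w a ≠ ∞) :
    (∫⁻ a, f a ∂ν) ^ (r + 1) ≤
      (∫⁻ a, w a ∂ν) ^ r * ∫⁻ a, f a ^ (r + 1) * w a ^ (-r) ∂ν := by
  have hr1 : 0 < r + 1 := by linarith
  have hpq : ((r + 1) / r).HolderConjugate (r + 1) := by
    rw [Real.holderConjugate_iff]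
    refine ⟨by rw [lt_div_iff₀ hr]; linarith, ?_⟩
    field_simp
  have h := ENNReal.lintegral_mul_le_Lp_mul_Lq ν hpq (hw.pow_const (r / (r + 1)))
    (hf.mul (hw.pow_const (-(r / (r + 1)))))
  have e1 : ∫⁻ a, ((fun a => w a ^ (r / (r + 1))) *
      (f * fun a => w a ^ (-(r / (r + 1))))) a ∂ν = ∫⁻ a, f a ∂ν := by
    congr 1
    funext a
    simp only [Pi.mul_apply]
    rw [mul_left_comm, ← ENNReal.rpow_add _ _ (h0 a) (h1 a), add_neg_cancel, ENNReal.rpow_zero,
      mul_one]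
  have e2 : ∀ a, (w a ^ (r / (r + 1))) ^ ((r + 1) / r) = w a := by
    intro a
    rw [← ENNReal.rpow_mul]
    have : r / (r + 1) * ((r + 1) / r) = 1 := by field_simp
    rw [this, ENNReal.rpow_one]
  have e3 : ∀ a, ((f * fun a => w a ^ (-(r / (r + 1)))) a) ^ (r + 1) =
      f a ^ (r + 1) * w a ^ (-r) := by
    intro a
    simp only [Pi.mul_apply]
    rw [ENNReal.mul_rpow_of_nonneg _ _ hr1.le, ← ENNReal.rpow_mul]
    congr 2
    field_simp
  rw [e1] at h
  simp only [e2, e3] at h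
  calc (∫⁻ a, f a ∂ν) ^ (r + 1) ≤ ((∫⁻ a, w a ∂ν) ^ (1 / ((r + 1) / r)) *
        (∫⁻ a, f a ^ (r + 1) * w a ^ (-r) ∂ν) ^ (1 / (r + 1))) ^ (r + 1) :=
        ENNReal.rpow_le_rpow h hr1.le
    _ = _ := by
        rw [ENNReal.mul_rpow_of_nonneg _ _ hr1.le, ← ENNReal.rpow_mul, ← ENNReal.rpow_mul]
        have a1 : 1 / ((r + 1) / r) * (r + 1) = r := by field_simp
        have a2 : 1 / (r + 1) * (r + 1) = 1 := by field_simp
        rw [a1, a2, ENNReal.rpow_one]

/-- truncated Jacobian -/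
noncomputable def W (b' : Vec d → Vec d →L[ℝ] Vec d) (τ : Vec d → ℝ) (v : Vec d) (t : ℝ) : ℝ≥0∞ :=
  ENNReal.ofReal (max |(b' v + t • ContinuousLinearMap.id ℝ (Vec d)).det| (τ v))

theorem det_measurable {b' : Vec d → Vec d →L[ℝ] Vec d} (hb' : Measurable b') :
    Measurable (fun q : Vec d × ℝ => (b' q.1 + q.2 • ContinuousLinearMap.id ℝ (Vec d)).det) := by
  apply ContinuousLinearMap.continuous_det.measurable.comp
  have h1 : Measurable (fun q : Vec d × ℝ => b' q.1) := hb'.comp measurable_fst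
  have h2 : Measurable (fun q : Vec d × ℝ => q.2 • ContinuousLinearMap.id ℝ (Vec d)) := by
    have hc : Continuous (fun q : Vec d × ℝ => q.2 • ContinuousLinearMap.id ℝ (Vec d)) := by fun_prop
    exact hc.measurable
  exact h1.add h2

theorem W_measurable {b' : Vec d → Vec d →L[ℝ] Vec d} (hb' : Measurable b') {τ : Vec d → ℝ}
    (hτ : Measurable τ) : Measurable (fun q : Vec d × ℝ => W b' τ q.1 q.2) :=
  ((det_measurable hb').abs.max (hτ.comp measurable_fst)).ennreal_ofReal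

theorem W_ne_zero (b' : Vec d → Vec d →L[ℝ] Vec d) {τ : Vec d → ℝ} (hτ : ∀ v, 0 < τ v)
    (v : Vec d) (t : ℝ) : W b' τ v t ≠ 0 := by
  unfold W
  rw [ne_eq, ENNReal.ofReal_eq_zero, not_le]
  exact lt_max_of_lt_right (hτ v)

theorem W_ne_top (b' : Vec d → Vec d →L[ℝ] Vec d) (τ : Vec d → ℝ)
    (v : Vec d) (t : ℝ) : W b' τ v t ≠ ∞ := ENNReal.ofReal_ne_top

theorem ker_measurable {b₀ : Vec d → Vec d} (hb : Measurable b₀) (R t : ℝ) :
    Measurable (fun q : Vec d × Vec d => ker b₀ R t q.1 q.2) := by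
  have hS : MeasurableSet {q : Vec d × Vec d | dist (b₀ q.2 + t • q.2) q.1 ≤ R} := by
    apply measurableSet_le _ measurable_const
    have h1 : Measurable (fun q : Vec d × Vec d => b₀ q.2 + t • q.2) :=
      (hb.comp measurable_snd).add (measurable_snd.const_smul t)
    exact h1.dist measurable_fst
  have e : (fun q : Vec d × Vec d => ker b₀ R t q.1 q.2) =
      {q : Vec d × Vec d | dist (b₀ q.2 + t • q.2) q.1 ≤ R}.indicator (fun _ => (1 : ℝ≥0∞)) := by
    funext q
    unfold Pool.Agent.H810R3.Tub.ker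
    by_cases h : dist (b₀ q.2 + t • q.2) q.1 ≤ R
    · rw [indicator_of_mem (show q ∈ {q : Vec d × Vec d | dist (b₀ q.2 + t • q.2) q.1 ≤ R} from h),
        indicator_of_mem (mem_closedBall.2 h)]
    · rw [indicator_of_notMem (show q ∉ {q : Vec d × Vec d | dist (b₀ q.2 + t • q.2) q.1 ≤ R} from h),
        indicator_of_notMem (fun h' => h (mem_closedBall.1 h'))]
  rw [e]
  exact measurable_const.indicator hS

theorem W_meas_left {b' : Vec d → Vec d →L[ℝ] Vec d} (hb' : Measurable b') {τ : Vec d → ℝ}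
    (hτ : Measurable τ) (t : ℝ) : Measurable (fun v => W b' τ v t) := by
  have h := W_measurable hb' hτ
  generalize W b' τ = w at h ⊢
  exact h.comp (measurable_id.prodMk measurable_const)

/-- The data of a good family: countably many disjoint measurable pieces on which the family is
differentiable, and almost everywhere bounded nondegenerate overlap at the heights in `T`. -/
structure Good (M : ℕ) (T : Set ℝ) (P : ℕ → Set (Vec d)) (b b₀ : Vec d → Vec d)
    (b' : Vec d → Vec d →L[ℝ] Vec d) : Prop where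
  meas : ∀ k, MeasurableSet (P k)
  disj : Pairwise (Function.onFun Disjoint P)
  deriv : ∀ k, ∀ v ∈ P k, HasFDerivWithinAt b (b' v) (P k) v
  mb' : Measurable b'
  mb₀ : Measurable b₀
  eqb : ∀ v ∈ ⋃ k, P k, b₀ v = b v
  mult : ∀ᵐ t : ℝ, t ∈ T → ∀ᵐ y : Vec d, {v | v ∈ ⋃ k, P k ∧ b v + t • v = y ∧
      (b' v + t • ContinuousLinearMap.id ℝ (Vec d)).det ≠ 0}.encard ≤ M

theorem Good.inter {M : ℕ} {T : Set ℝ} {P : ℕ → Set (Vec d)} {b b₀ : Vec d → Vec d}
    {b' : Vec d → Vec d →L[ℝ] Vec d} (h : Good M T P b b₀ b') {V : Set (Vec d)}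
    (hV : MeasurableSet V) : Good M T (fun k => P k ∩ V) b b₀ b' where
  meas k := (h.meas k).inter hV
  disj i j hij := (h.disj hij).mono inter_subset_left inter_subset_left
  deriv k v hv := (h.deriv k v hv.1).mono inter_subset_left
  mb' := h.mb'
  mb₀ := h.mb₀
  eqb v hv := by
    obtain ⟨k, hk⟩ := mem_iUnion.1 hv
    exact h.eqb v (mem_iUnion.2 ⟨k, hk.1⟩)
  mult := by
    filter_upwards [h.mult] with t ht htT
    filter_upwards [ht htT] with y hy
    refine le_trans (Set.encard_le_encard ?_) hy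
    rintro v ⟨h1, h2⟩
    obtain ⟨k, hk⟩ := mem_iUnion.1 h1
    exact ⟨mem_iUnion.2 ⟨k, hk.1⟩, h2⟩

/-- The area inequality. -/
theorem Good.area {M : ℕ} {T : Set ℝ} {P : ℕ → Set (Vec d)} {b b₀ : Vec d → Vec d}
    {b' : Vec d → Vec d →L[ℝ] Vec d} (h : Good M T P b b₀ b') {t : ℝ}
    (ht : ∀ᵐ y : Vec d, {v | v ∈ ⋃ k, P k ∧ b v + t • v = y ∧
      (b' v + t • ContinuousLinearMap.id ℝ (Vec d)).det ≠ 0}.encard ≤ M) (R : ℝ) (x : Vec d) :
    ∫⁻ v in ⋃ k, P k, ker b₀ R t x v *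
      ENNReal.ofReal |(b' v + t • ContinuousLinearMap.id ℝ (Vec d)).det| ≤
      M * volume (closedBall x R) := by
  have hUm : MeasurableSet (⋃ k, P k) := MeasurableSet.iUnion h.meas
  have e1 : ∫⁻ v in ⋃ k, P k, ker b₀ R t x v *
      ENNReal.ofReal |(b' v + t • ContinuousLinearMap.id ℝ (Vec d)).det| =
      ∫⁻ v in ⋃ k, P k, (closedBall x R).indicator (fun _ => (1 : ℝ≥0∞)) (b v + t • v) *
      ENNReal.ofReal |(b' v + t • ContinuousLinearMap.id ℝ (Vec d)).det| := by
    refine setLIntegral_congr_fun hUm fun v hv => ?_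
    show ker b₀ R t x v * _ = _
    unfold Pool.Agent.H810R3.Tub.ker
    rw [h.eqb v hv]
  rw [e1]
  have h1 := lintegral_comp_det_leP (volume : Measure (Vec d)) (φ := fun v => b v + t • v)
    (φ' := fun v => b' v + t • ContinuousLinearMap.id ℝ (Vec d)) (P := P) (N := M) h.meas h.disj
    (fun k v hv => (h.deriv k v hv).add ((hasFDerivWithinAt_id v (P k)).const_smul t))
    (h.mb'.add_const _) ht
    (H := (closedBall x R).indicator (fun _ => 1)) (measurable_const.indicator measurableSet_closedBall)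
  refine h1.trans_eq ?_
  rw [lintegral_indicator_const measurableSet_closedBall, one_mul]

/-- Pointwise bound. -/
theorem Good.point_bound {M : ℕ} {T : Set ℝ} {P : ℕ → Set (Vec d)} {b b₀ : Vec d → Vec d}
    {b' : Vec d → Vec d →L[ℝ] Vec d} (h : Good M T P b b₀ b') {t : ℝ}
    (ht : ∀ᵐ y : Vec d, {v | v ∈ ⋃ k, P k ∧ b v + t • v = y ∧
      (b' v + t • ContinuousLinearMap.id ℝ (Vec d)).det ≠ 0}.encard ≤ M) (R : ℝ) {r : ℝ}
    (hr : 0 < r) {τ : Vec d → ℝ} (hτm : Measurable τ) (hτ : ∀ v, 0 < τ v) {f : Vec d → ℝ≥0∞}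
    (hf : Measurable f) (x : Vec d) :
    (∫⁻ v in ⋃ k, P k, ker b₀ R t x v * f v) ^ (r + 1) ≤
      (M * volume (closedBall x R) + ∫⁻ v in ⋃ k, P k, ENNReal.ofReal (τ v)) ^ r *
        ∫⁻ v in ⋃ k, P k, ker b₀ R t x v * (f v ^ (r + 1) * W b' τ v t ^ (-r)) := by
  set U := ⋃ k, P k with hU
  have hUm : MeasurableSet U := MeasurableSet.iUnion h.meas
  set K : Set (Vec d) := {v | b₀ v + t • v ∈ closedBall x R} with hK
  have hKm : MeasurableSet K := by
    have h1 : Measurable (fun v : Vec d => b₀ v + t • v) := h.mb₀.add (measurable_id.const_smul t)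
    exact h1 measurableSet_closedBall
  have hker : ∀ v, ker b₀ R t x v = K.indicator (fun _ => 1) v := by
    intro v
    unfold Pool.Agent.H810R3.Tub.ker
    by_cases h : b₀ v + t • v ∈ closedBall x R
    · rw [indicator_of_mem h, indicator_of_mem (show v ∈ K from h)]
    · rw [indicator_of_notMem h, indicator_of_notMem (show v ∉ K from h)]
  have hmul : ∀ (g : Vec d → ℝ≥0∞), ∫⁻ v in U, ker b₀ R t x v * g v = ∫⁻ v in U ∩ K, g v := by
    intro g
    rw [inter_comm, ← Measure.restrict_restrict hKm, ← lintegral_indicator hKm]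
    congr 1
    funext v
    rw [hker]
    by_cases h : v ∈ K
    · simp [h]
    · simp [h]
  have hWm : Measurable (fun v => W b' τ v t) := W_meas_left h.mb' hτm t
  have hH := holder_ww (volume.restrict (U ∩ K)) hr (w := fun v => W b' τ v t) (f := f)
    hWm.aemeasurable hf.aemeasurable (fun v => W_ne_zero b' hτ v t) (fun v => W_ne_top b' τ v t)
  rw [hmul, hmul]
  refine hH.trans ?_
  gcongr
  calc ∫⁻ v in U ∩ K, W b' τ v t
      ≤ ∫⁻ v in U ∩ K, (ENNReal.ofReal |(b' v + t • ContinuousLinearMap.id ℝ (Vec d)).det| +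
          ENNReal.ofReal (τ v)) := by
        apply lintegral_mono
        intro v
        show W b' τ v t ≤ ENNReal.ofReal |(b' v + t • ContinuousLinearMap.id ℝ (Vec d)).det| +
          ENNReal.ofReal (τ v)
        unfold W
        rw [← ENNReal.ofReal_add (abs_nonneg _) (hτ v).le]
        apply ENNReal.ofReal_le_ofReal
        exact max_le (by linarith [hτ v])
          (by linarith [abs_nonneg (b' v + t • ContinuousLinearMap.id ℝ (Vec d)).det])
    _ = (∫⁻ v in U ∩ K, ENNReal.ofReal |(b' v + t • ContinuousLinearMap.id ℝ (Vec d)).det|) +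
          ∫⁻ v in U ∩ K, ENNReal.ofReal (τ v) := by
        rw [lintegral_add_right _ hτm.ennreal_ofReal]
    _ ≤ M * volume (closedBall x R) + ∫⁻ v in U, ENNReal.ofReal (τ v) := by
        have := h.area ht R x
        rw [← hU, hmul] at this
        exact add_le_add this (lintegral_mono_set inter_subset_left)

/-- Integral of the truncated weight in the height. -/
theorem weight_int (hd : 1 ≤ d) (b' : Vec d → Vec d →L[ℝ] Vec d) {r : ℝ} (hr : 1 < d * r)
    {τ : Vec d → ℝ} (hτ : ∀ v, 0 < τ v) (v : Vec d) :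
    ∫⁻ t : ℝ, W b' τ v t ^ (-r) ≤
      d * ENNReal.ofReal (2 * (d * r) / (d * r - 1) * (τ v ^ ((d : ℝ)⁻¹)) ^ (1 - d * r)) := by
  obtain ⟨μ, hμc, hμ⟩ := det_centers (b' v)
  rw [finrank_euclideanSpace_fin] at hμc
  have hd0 : (0 : ℝ) < d := by exact_mod_cast hd
  have hr0 : 0 < r := by
    by_contra hcon
    push Not at hcon
    nlinarith
  refine le_trans (lintegral_mono fun t => ?_) (trunc_prod hd hr (hτ v) μ hμc)
  show W b' τ v t ^ (-r) ≤ _
  unfold W
  have h1 : 0 < max (μ.map (fun m => |t - m|)).prod (τ v) := lt_max_of_lt_right (hτ v)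
  have h2 : max (μ.map (fun m => |t - m|)).prod (τ v) ≤
      max |(b' v + t • ContinuousLinearMap.id ℝ (Vec d)).det| (τ v) :=
    max_le_max_right (τ v) (hμ t)
  rw [ENNReal.ofReal_rpow_of_pos (h1.trans_le h2)]
  apply ENNReal.ofReal_le_ofReal
  exact Real.rpow_le_rpow_of_nonpos h1 h2 (by linarith)

/-- The core estimate. -/
theorem Good.core (hd : 1 ≤ d) {M : ℕ} {T : Set ℝ} (hT : MeasurableSet T) {P : ℕ → Set (Vec d)}
    {b b₀ : Vec d → Vec d} {b' : Vec d → Vec d →L[ℝ] Vec d} (h : Good M T P b b₀ b') (R : ℝ)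
    {r : ℝ} (hr : 1 < d * r) {τ : Vec d → ℝ} (hτm : Measurable τ) (hτ : ∀ v, 0 < τ v)
    {f : Vec d → ℝ≥0∞} (hf : Measurable f) :
    ∫⁻ t in T, ∫⁻ x : Vec d, (∫⁻ v in ⋃ k, P k, ker b₀ R t x v * f v) ^ (r + 1) ≤
      (M * volume (closedBall (0 : Vec d) R) + ∫⁻ v in ⋃ k, P k, ENNReal.ofReal (τ v)) ^ r *
        (volume (closedBall (0 : Vec d) R) * ∫⁻ v in ⋃ k, P k, f v ^ (r + 1) *
          (d * ENNReal.ofReal (2 * (d * r) / (d * r - 1) * (τ v ^ ((d : ℝ)⁻¹)) ^ (1 - d * r)))) := by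
  have hd0 : (0 : ℝ) < d := by exact_mod_cast hd
  have hr0 : 0 < r := by
    by_contra hcon
    push Not at hcon
    nlinarith
  set U := ⋃ k, P k with hU
  set Q := (M * volume (closedBall (0 : Vec d) R) + ∫⁻ v in U, ENNReal.ofReal (τ v)) ^ r with hQ
  have hvol : ∀ x : Vec d, volume (closedBall x R) = volume (closedBall (0 : Vec d) R) :=
    fun x => Measure.addHaar_closedBall_center _ _ _
  have hpt : ∀ᵐ t : ℝ, t ∈ T → ∀ x : Vec d, (∫⁻ v in U, ker b₀ R t x v * f v) ^ (r + 1) ≤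
      Q * ∫⁻ v in U, ker b₀ R t x v * (f v ^ (r + 1) * W b' τ v t ^ (-r)) := by
    filter_upwards [h.mult] with t ht htT
    intro x
    have := h.point_bound (ht htT) R hr0 hτm hτ hf x
    rw [hvol] at this
    exact this
  have hwi := weight_int hd b' hr hτ
  have hWm := W_measurable h.mb' hτm
  have hkm := ker_measurable h.mb₀ R
  have hks : ∀ t x v, ker b₀ R t x v = (closedBall (b₀ v + t • v) R).indicator (fun _ => 1) x :=
    fun t x v => ker_symm b₀ R t x v
  generalize W b' τ = w at hpt hwi hWm ⊢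
  generalize ker b₀ R = k at hpt hkm hks ⊢
  -- the weight
  have hWm2 : Measurable (fun q : Vec d × ℝ => f q.1 ^ (r + 1) * w q.1 q.2 ^ (-r)) :=
    ((hf.comp measurable_fst).pow_const _).mul (hWm.pow_const _)
  have hWm3 : Measurable (fun q : ℝ × Vec d => f q.2 ^ (r + 1) * w q.2 q.1 ^ (-r)) :=
    hWm2.comp measurable_swap
  have hWm1 : ∀ t, Measurable (fun v => f v ^ (r + 1) * w v t ^ (-r)) := fun t =>
    hWm2.comp (measurable_id.prodMk measurable_const)
  have hprod : ∀ t, Measurable (fun q : Vec d × Vec d => k t q.1 q.2 *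
      (f q.2 ^ (r + 1) * w q.2 t ^ (-r))) := fun t =>
    (hkm t).mul ((hWm1 t).comp measurable_snd)
  have hstep : ∀ t : ℝ, (∫⁻ x : Vec d, ∫⁻ v in U, k t x v *
      (f v ^ (r + 1) * w v t ^ (-r))) =
      volume (closedBall (0 : Vec d) R) * ∫⁻ v in U, f v ^ (r + 1) * w v t ^ (-r) := by
    intro t
    rw [lintegral_lintegral_swap (hprod t).aemeasurable, ← lintegral_const_mul _ (hWm1 t)]
    refine lintegral_congr fun v => ?_
    have h1 : ∀ x, k t x v * (f v ^ (r + 1) * w v t ^ (-r)) =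
        (f v ^ (r + 1) * w v t ^ (-r)) *
          (closedBall (b₀ v + t • v) R).indicator (fun _ => 1) x := by
      intro x
      rw [hks, mul_comm]
    simp only [h1]
    rw [lintegral_const_mul _ (measurable_const.indicator measurableSet_closedBall),
      lintegral_indicator_const measurableSet_closedBall, one_mul, hvol, mul_comm]
  have s1 : ∫⁻ t in T, ∫⁻ x : Vec d, (∫⁻ v in U, k t x v * f v) ^ (r + 1)
      ≤ ∫⁻ t in T, ∫⁻ x : Vec d, Q * ∫⁻ v in U, k t x v * (f v ^ (r + 1) * w v t ^ (-r)) := by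
    apply lintegral_mono_ae
    rw [ae_restrict_iff' hT]
    filter_upwards [hpt] with t ht htT
    exact lintegral_mono (ht htT)
  have s2 : ∫⁻ t in T, ∫⁻ x : Vec d, Q * ∫⁻ v in U, k t x v * (f v ^ (r + 1) * w v t ^ (-r))
      ≤ ∫⁻ t : ℝ, ∫⁻ x : Vec d, Q * ∫⁻ v in U, k t x v * (f v ^ (r + 1) * w v t ^ (-r)) :=
    setLIntegral_le_lintegral _ _
  have s3 : ∫⁻ t : ℝ, ∫⁻ x : Vec d, Q * ∫⁻ v in U, k t x v * (f v ^ (r + 1) * w v t ^ (-r))
      = ∫⁻ t : ℝ, Q * (volume (closedBall (0 : Vec d) R) *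
          ∫⁻ v in U, f v ^ (r + 1) * w v t ^ (-r)) := by
    refine lintegral_congr fun t => ?_
    rw [← hstep t]
    exact lintegral_const_mul _ (hprod t).lintegral_prod_right'
  have s4 : ∫⁻ t : ℝ, Q * (volume (closedBall (0 : Vec d) R) *
          ∫⁻ v in U, f v ^ (r + 1) * w v t ^ (-r))
      = Q * (volume (closedBall (0 : Vec d) R) * ∫⁻ t : ℝ,
          ∫⁻ v in U, f v ^ (r + 1) * w v t ^ (-r)) := by
    have h1 : Measurable (fun t : ℝ => ∫⁻ v in U, f v ^ (r + 1) * w v t ^ (-r)) :=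
      hWm3.lintegral_prod_right'
    rw [lintegral_const_mul _ (h1.const_mul _), lintegral_const_mul _ h1]
  have s5 : ∫⁻ t : ℝ, ∫⁻ v in U, f v ^ (r + 1) * w v t ^ (-r)
      = ∫⁻ v in U, ∫⁻ t : ℝ, f v ^ (r + 1) * w v t ^ (-r) :=
    lintegral_lintegral_swap (f := fun (t : ℝ) (v : Vec d) => f v ^ (r + 1) * w v t ^ (-r))
      hWm3.aemeasurable
  have s6 : ∫⁻ v in U, ∫⁻ t : ℝ, f v ^ (r + 1) * w v t ^ (-r) ≤ ∫⁻ v in U, f v ^ (r + 1) *
          (d * ENNReal.ofReal (2 * (d * r) / (d * r - 1) *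
            (τ v ^ ((d : ℝ)⁻¹)) ^ (1 - d * r))) := by
    apply lintegral_mono
    intro v
    have hm : Measurable (fun t : ℝ => w v t ^ (-r)) :=
      (hWm.comp (measurable_const.prodMk measurable_id)).pow_const _
    show ∫⁻ t : ℝ, f v ^ (r + 1) * w v t ^ (-r) ≤ _
    rw [lintegral_const_mul _ hm]
    exact mul_le_mul_right (hwi v) _
  calc ∫⁻ t in T, ∫⁻ x : Vec d, (∫⁻ v in U, k t x v * f v) ^ (r + 1)
      ≤ _ := s1
    _ ≤ _ := s2
    _ = _ := s3
    _ = _ := s4
    _ ≤ _ := by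
        rw [s5]
        exact mul_le_mul_right (mul_le_mul_right s6 _) _

end Pool.Agent.TH221.Rough
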