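import Pool.Agent.TH221.Rough.Strong

set_option autoImplicit false

/-!
Families of lines with good pieces, and the two forms of the estimate.
-/

open MeasureTheory Set Filter Topology ENNReal NNReal Metric

namespace Pool.Agent.TH221.Rough

open Pool.Agent.H803R2.Kak
open Pool.Agent.H810R3.Tub (Vec Space tube dir dir_sub_le tube_eq tube_closed om om_pos vol_closedBall vol_ball)
open Pool.Agent.H805R3.Kk (LipPieces OverlapLE SectionMonotone)

variable {d : ℕ}

/-- Up to a null set, `B` is a countable union of pieces that form a good family. -/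
def HasGood (M : ℕ) (T : Set ℝ) (B : Set (Vec d)) (g : Vec d → Vec d) : Prop :=
  ∃ (P : ℕ → Set (Vec d)) (b₀ : Vec d → Vec d) (b' : Vec d → Vec d →L[ℝ] Vec d),
    Good M T P g b₀ b' ∧ (⋃ k, P k) ⊆ B ∧ (⋃ k, P k) =ᵐ[volume] B

theorem HasGood.of_lipPieces {M : ℕ} {T : Set ℝ} {B : Set (Vec d)} {g : Vec d → Vec d}
    (hB : MeasurableSet B) (hg : LipPieces B g) (hN : OverlapLE M T B g) : HasGood M T B g := by
  obtain ⟨P, b', b₀, h1, h2, h3, h4, h5, h6, h7, h8⟩ := hg.exists_good hB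
  refine ⟨P, b₀, b', ⟨h1, h2, h5, h6, h7, h8, ?_⟩, h3, h4⟩
  filter_upwards [hN] with t ht htT
  filter_upwards [ht htT] with y hy
  refine le_trans (Set.encard_le_encard ?_) hy
  rintro v ⟨h1, h2, -⟩
  exact ⟨h3 h1, h2⟩

theorem HasGood.of_sectionMonotone {T : Set ℝ} (hT : volume T ≠ 0) {B : Set (Vec d)}
    {g : Vec d → Vec d} (hB : MeasurableSet B) (hg : SectionMonotone T B g) : HasGood 1 T B g := by
  classical
  obtain ⟨B2, b2, h1, h2, h3, h4, h5, h6⟩ := hg.exists_good hT hB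
  have hU : (⋃ k : ℕ, (fun k : ℕ => if k = 0 then B2 else ∅) k) = B2 := by
    ext v
    simp only [mem_iUnion]
    constructor
    · rintro ⟨k, hk⟩
      split_ifs at hk with h
      · exact hk
      · exact absurd hk (notMem_empty v)
    · intro hv
      exact ⟨0, by simpa using hv⟩
  have hc : ContinuousOn g B2 := fun v hv => (h4 v hv).continuousWithinAt
  refine ⟨fun k => if k = 0 then B2 else ∅, B2.indicator g, b2, ⟨?_, ?_, ?_, h5, ?_, ?_, ?_⟩,
    ?_, ?_⟩
  · intro k
    show MeasurableSet (if k = 0 then B2 else ∅)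
    split_ifs
    · exact h1
    · exact MeasurableSet.empty
  · intro i j hij
    show Disjoint (if i = 0 then B2 else ∅) (if j = 0 then B2 else ∅)
    by_cases hi : i = 0
    · have hj : j ≠ 0 := fun hj => hij (by rw [hi, hj])
      rw [if_neg hj]
      exact disjoint_bot_right
    · rw [if_neg hi]
      exact disjoint_bot_left
  · intro k v hv
    by_cases hk : k = 0
    · simp only [hk, if_true] at hv ⊢
      exact h4 v hv
    · simp only [hk, if_false] at hv
      exact absurd hv (notMem_empty v)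
  · have := hc.measurable_piecewise (g := fun _ => (0 : Vec d)) continuousOn_const h1
    convert this using 1
    ext v
    by_cases hv : v ∈ B2
    · simp [hv]
    · simp [hv]
  · intro v hv
    rw [hU] at hv
    exact indicator_of_mem hv g
  · rw [hU]
    exact h6
  · rw [hU]
    exact h2
  · rw [hU]
    exact h3

/-- Changing the family on a null set of directions. -/
theorem set_ae {T : Set ℝ} {M : ℕ} {B : Set (Vec d)} {g b₀ : Vec d → Vec d}
    {P : ℕ → Set (Vec d)} {b' : Vec d → Vec d →L[ℝ] Vec d} (h : Good M T P g b₀ b')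
    (hPB : (⋃ k, P k) ⊆ B) (hae : (⋃ k, P k) =ᵐ[volume] B) (p : Vec d → Vec d → Prop) :
    {v | v ∈ B ∧ p v (g v)} =ᵐ[volume] {v | v ∈ ⋃ k, P k ∧ p v (b₀ v)} := by
  filter_upwards [hae.mem_iff] with v hv
  apply propext
  constructor
  · rintro ⟨h1, h2⟩
    have h3 := hv.2 h1
    refine ⟨h3, ?_⟩
    rw [h.eqb v h3]
    exact h2
  · rintro ⟨h1, h2⟩
    rw [h.eqb v h1] at h2
    exact ⟨hPB h1, h2⟩

theorem Good.lint_eq {T : Set ℝ} {M : ℕ} {B : Set (Vec d)} {g b₀ : Vec d → Vec d}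
    {P : ℕ → Set (Vec d)} {b' : Vec d → Vec d →L[ℝ] Vec d} (h : Good M T P g b₀ b')
    (hPB : (⋃ k, P k) ⊆ B) (hae : (⋃ k, P k) =ᵐ[volume] B) (R t : ℝ) (x : Vec d)
    (f : Vec d → ℝ≥0∞) :
    ∫⁻ v in {v | v ∈ B ∧ ‖x - (g v + t • v)‖ ≤ R}, f v =
      ∫⁻ v in ⋃ k, P k, Pool.Agent.H810R3.Tub.ker b₀ R t x v * f v := by
  set U := ⋃ k, P k with hU
  set K : Set (Vec d) := {v | b₀ v + t • v ∈ closedBall x R} with hK
  have hKm : MeasurableSet K := by
    have h1 : Measurable (fun v : Vec d => b₀ v + t • v) := h.mb₀.add (measurable_id.const_smul t)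
    exact h1 measurableSet_closedBall
  have hker : ∀ v, Pool.Agent.H810R3.Tub.ker b₀ R t x v = K.indicator (fun _ => 1) v := by
    intro v
    unfold Pool.Agent.H810R3.Tub.ker
    by_cases h : b₀ v + t • v ∈ closedBall x R
    · rw [indicator_of_mem h, indicator_of_mem (show v ∈ K from h)]
    · rw [indicator_of_notMem h, indicator_of_notMem (show v ∉ K from h)]
  have hmul : ∫⁻ v in U, Pool.Agent.H810R3.Tub.ker b₀ R t x v * f v = ∫⁻ v in U ∩ K, f v := by
    rw [inter_comm, ← Measure.restrict_restrict hKm, ← lintegral_indicator hKm]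
    congr 1
    funext v
    rw [hker]
    by_cases h : v ∈ K
    · simp [h]
    · simp [h]
  rw [hmul]
  apply setLIntegral_congr
  refine (set_ae h hPB hae (fun v y => ‖x - (y + t • v)‖ ≤ R)).trans ?_
  apply Filter.EventuallyEq.of_eq
  ext v
  constructor
  · rintro ⟨h1, h2⟩
    exact ⟨h1, by
      show b₀ v + t • v ∈ closedBall x R
      rw [mem_closedBall, dist_eq_norm, norm_sub_rev]
      exact h2⟩
  · rintro ⟨h1, h2⟩
    refine ⟨h1, ?_⟩
    have h3 : b₀ v + t • v ∈ closedBall x R := h2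
    rw [mem_closedBall, dist_eq_norm, norm_sub_rev] at h3
    exact h3

/-- **The strong type estimate.** -/
theorem HasGood.strong (hd : 1 ≤ d) {q : ℝ} (hq : ((d : ℝ) + 1) / d < q) {M : ℕ} {T : Set ℝ}
    (hT : MeasurableSet T) {B : Set (Vec d)} {g : Vec d → Vec d} (h : HasGood M T B g) {R : ℝ}
    (hR : 0 < R) {f : Vec d → ℝ≥0∞} (hf : Measurable f) :
    ∫⁻ t in T, ∫⁻ x : Vec d, (∫⁻ v in {v | v ∈ B ∧ ‖x - (g v + t • v)‖ ≤ R}, f v) ^ q ≤
      ENNReal.ofReal (Cst d q * (1 + M) ^ (q - 1) * R ^ (d + 1)) *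
        (∫⁻ v in B, f v ^ (q * d / (q * d - 1))) ^ (q - 1 / d) := by
  obtain ⟨P, b₀, b', hg, hPB, hae⟩ := h
  have h1 := hg.strong hd hq hT hR hf
  simp only [hg.lint_eq hPB hae]
  rw [← setLIntegral_congr hae]
  exact h1

/-- The sum of the weighted indicators of the tubes. -/
noncomputable def Fw {ι : Type} [Fintype ι] (δ : ℝ) (v β : ι → Vec d) (s a : ι → ℝ) (x : Vec d)
    (t : ℝ) : ℝ≥0∞ :=
  ∑ i, (tube δ (dir (v i)) (WithLp.toLp 2 (β i + s i • v i, s i))).indicator (fun _ => ‖a i‖ₑ)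
    (WithLp.toLp 2 (x, t))

/-- `δ / 2`-balls about `δ`-separated points. -/
theorem disj_balls {ι : Type} {δ : ℝ} {v : ι → Vec d} (hsep : ∀ i j, i ≠ j → δ ≤ ‖v i - v j‖)
    {w : Vec d} {i j : ι} (hi : ‖w - v i‖ < δ / 2) (hj : ‖w - v j‖ < δ / 2) : i = j := by
  by_contra hij
  have h1 := hsep i j hij
  have h2 : ‖v i - v j‖ ≤ ‖w - v i‖ + ‖w - v j‖ := by
    calc ‖v i - v j‖ = ‖(w - v j) - (w - v i)‖ := by congr 1; abel
      _ ≤ ‖w - v j‖ + ‖w - v i‖ := norm_sub_le _ _
      _ = _ := add_comm _ _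
  linarith

/-- Comparison of the sum over the tubes with the continuous family. -/
theorem Fw_le {ι : Type} [Fintype ι] {K S : ℝ≥0} {b₀ : Vec d → Vec d} (hb₀ : Measurable b₀)
    {δ : ℝ} (hδ : 0 < δ)
    (hδ1 : δ < 1) (v β : ι → Vec d) (s a : ι → ℝ) (hv : ∀ i, ‖v i‖ ≤ 1) (hs : ∀ i, |s i| ≤ S)
    {U : Set (Vec d)} (E : ι → Set (Vec d)) (hE : ∀ i, MeasurableSet (E i)) (hEU : ∀ i, E i ⊆ U)
    (hE1 : ∀ i, ∀ w ∈ E i, ‖w - v i‖ < δ / 2 ∧ ‖β i - b₀ w‖ ≤ K * δ)
    (hE0 : ∀ i, volume (E i) ≠ 0) (x : Vec d) (t : ℝ) :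
    Fw δ v β s a x t * volume (ball (0 : Vec d) (δ / 2)) ≤
      ∫⁻ w in U, Pool.Agent.H810R3.Tub.ker b₀ ((4 + K + S) * δ) t x w *
        ∑ i, (E i).indicator (fun _ => ‖a i‖ₑ * (volume (ball (0 : Vec d) (δ / 2)) /
          volume (E i))) w := by
  classical
  have hEt : ∀ i, volume (E i) ≠ ∞ := by
    intro i
    refine ne_top_of_le_ne_top (measure_ball_lt_top (μ := (volume : Measure (Vec d)))
      (x := v i) (r := δ / 2)).ne (measure_mono ?_)
    intro w hw
    rw [mem_ball, dist_eq_norm]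
    exact (hE1 i w hw).1
  set c := volume (ball (0 : Vec d) (δ / 2)) with hc
  have hterm : ∀ i, (tube δ (dir (v i)) (WithLp.toLp 2 (β i + s i • v i, s i))).indicator
      (fun _ => ‖a i‖ₑ) (WithLp.toLp 2 (x, t)) * c ≤
      ∫⁻ w in E i, Pool.Agent.H810R3.Tub.ker b₀ ((4 + K + S) * δ) t x w *
        (‖a i‖ₑ * (c / volume (E i))) := by
    intro i
    by_cases hmem : (WithLp.toLp 2 (x, t) : Space d) ∈
        tube δ (dir (v i)) (WithLp.toLp 2 (β i + s i • v i, s i))
    · rw [indicator_of_mem hmem]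
      rw [tube_eq] at hmem
      obtain ⟨ht, hx⟩ := Pool.Agent.H803R2.KakFTO.tube_subset hδ hδ1 (fun _ => β i) (hv i) (s i) hmem
      have ht2 : |t| ≤ S + 3 / 2 := by
        have h1 := abs_le.1 (hs i)
        rw [abs_le]
        constructor <;> linarith [ht.1, ht.2, h1.1, h1.2]
      have hone : ∀ w ∈ E i, Pool.Agent.H810R3.Tub.ker b₀ ((4 + K + S) * δ) t x w *
          (‖a i‖ₑ * (c / volume (E i))) = ‖a i‖ₑ * (c / volume (E i)) := by
        intro w hw
        obtain ⟨hw1, hw2⟩ := hE1 i w hw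
        have : Pool.Agent.H810R3.Tub.ker b₀ ((4 + K + S) * δ) t x w = 1 := by
          unfold Pool.Agent.H810R3.Tub.ker
          apply indicator_of_mem
          rw [mem_closedBall, dist_eq_norm]
          have e : b₀ w + t • w - x = t • (w - v i) - (β i - b₀ w) - (x - (β i + t • v i)) := by
            rw [smul_sub]; abel
          have hS0 : (0 : ℝ) ≤ S := S.2
          have hT : ‖t • (w - v i)‖ ≤ (S + 3 / 2) * (δ / 2) := by
            rw [norm_smul, Real.norm_eq_abs]
            exact mul_le_mul ht2 hw1.le (norm_nonneg _) (by linarith)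
          rw [e]
          calc ‖t • (w - v i) - (β i - b₀ w) - (x - (β i + t • v i))‖
              ≤ ‖t • (w - v i) - (β i - b₀ w)‖ + ‖x - (β i + t • v i)‖ := norm_sub_le _ _
            _ ≤ ‖t • (w - v i)‖ + ‖β i - b₀ w‖ + ‖x - (β i + t • v i)‖ := by
                gcongr
                exact norm_sub_le _ _
            _ ≤ (S + 3 / 2) * (δ / 2) + K * δ + 2 * δ := by
                linarith
            _ ≤ (4 + K + S) * δ := by nlinarith [mul_nonneg hS0 hδ.le]
        rw [this, one_mul]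
      rw [setLIntegral_congr_fun (hE i) hone, setLIntegral_const]
      rw [mul_assoc, ENNReal.div_mul_cancel (hE0 i) (hEt i)]
    · rw [indicator_of_notMem hmem, zero_mul]
      exact zero_le
  have hmeas : ∀ i, Measurable ((E i).indicator (fun _ : Vec d => ‖a i‖ₑ * (c / volume (E i)))) :=
    fun i => measurable_const.indicator (hE i)
  have hkm : Measurable (fun w : Vec d =>
      Pool.Agent.H810R3.Tub.ker b₀ ((4 + K + S) * δ) t x w) := by
    have h1 := ker_measurable hb₀ ((4 + K + S) * δ) t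
    generalize Pool.Agent.H810R3.Tub.ker b₀ ((4 + K + S) * δ) t = k at h1 ⊢
    exact h1.comp (measurable_const.prodMk measurable_id)
  calc Fw δ v β s a x t * c
      = ∑ i, (tube δ (dir (v i)) (WithLp.toLp 2 (β i + s i • v i, s i))).indicator
          (fun _ => ‖a i‖ₑ) (WithLp.toLp 2 (x, t)) * c := by
        unfold Fw
        rw [Finset.sum_mul]
    _ ≤ ∑ i, ∫⁻ w in E i, Pool.Agent.H810R3.Tub.ker b₀ ((4 + K + S) * δ) t x w *
        (‖a i‖ₑ * (c / volume (E i))) := Finset.sum_le_sum fun i _ => hterm i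
    _ ≤ ∑ i, ∫⁻ w in U, Pool.Agent.H810R3.Tub.ker b₀ ((4 + K + S) * δ) t x w *
        (E i).indicator (fun _ => ‖a i‖ₑ * (c / volume (E i))) w := by
        refine Finset.sum_le_sum fun i _ => ?_
        have e1 : ∫⁻ w in E i, Pool.Agent.H810R3.Tub.ker b₀ ((4 + K + S) * δ) t x w *
            (‖a i‖ₑ * (c / volume (E i))) =
            ∫⁻ w in E i, Pool.Agent.H810R3.Tub.ker b₀ ((4 + K + S) * δ) t x w *
            (E i).indicator (fun _ => ‖a i‖ₑ * (c / volume (E i))) w := by
          refine setLIntegral_congr_fun (hE i) fun w hw => ?_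
          show _ = Pool.Agent.H810R3.Tub.ker b₀ ((4 + K + S) * δ) t x w *
            (E i).indicator (fun _ => ‖a i‖ₑ * (c / volume (E i))) w
          rw [indicator_of_mem hw]
        rw [e1]
        exact lintegral_mono_set (hEU i)
    _ = ∫⁻ w in U, ∑ i, Pool.Agent.H810R3.Tub.ker b₀ ((4 + K + S) * δ) t x w *
        (E i).indicator (fun _ => ‖a i‖ₑ * (c / volume (E i))) w := by
        rw [lintegral_finsetSum]
        intro i _
        exact hkm.mul (hmeas i)
    _ = _ := by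
        refine lintegral_congr fun w => ?_
        rw [Finset.mul_sum]

end Pool.Agent.TH221.Rough
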