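import Pool.Agent.TH221.Rough.Core

set_option autoImplicit false

/-!
The strong type estimate for good families.
-/

open MeasureTheory Set Filter Topology ENNReal NNReal Metric

namespace Pool.Agent.TH221.Rough

open Pool.Agent.H803R2.Kak
open Pool.Agent.H810R3.Tub (Vec om om_pos vol_closedBall)

variable {d : ℕ}

/-- The constant. -/
noncomputable def Cst (d : ℕ) (q : ℝ) : ℝ :=
  (1 + om d) ^ (q - 1) * om d * d * (2 * (d * (q - 1)) / (d * (q - 1) - 1))

theorem exp_facts (hd : 1 ≤ d) {q : ℝ} (hq : ((d : ℝ) + 1) / d < q) :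
    (0 : ℝ) < d ∧ 1 < q ∧ 1 < q * d ∧ 1 < (d : ℝ) * (q - 1) ∧ 0 < q * d / (q * d - 1) ∧
      0 < q - 1 / d := by
  have hd0 : (0 : ℝ) < d := by exact_mod_cast hd
  have hdq : (d : ℝ) + 1 < q * d := by rwa [div_lt_iff₀ hd0] at hq
  have hr : 1 < (d : ℝ) * (q - 1) := by nlinarith
  have hq1 : 1 < q := by
    by_contra hcon
    push Not at hcon
    nlinarith
  refine ⟨hd0, hq1, by linarith, hr, div_pos (by linarith) (by linarith), ?_⟩
  rw [sub_pos, div_lt_iff₀ hd0]
  linarith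

theorem Cst_pos (hd : 1 ≤ d) {q : ℝ} (hq : ((d : ℝ) + 1) / d < q) : 0 < Cst d q := by
  obtain ⟨hd0, hq1, hqd, hr, hs, hq2⟩ := exp_facts hd hq
  have hom := om_pos (d := d)
  unfold Cst
  have : 0 < 2 * (d * (q - 1)) / (d * (q - 1) - 1) := div_pos (by linarith) (by linarith)
  positivity

/-- The final arithmetic. -/
theorem const_le (hd : 1 ≤ d) {q : ℝ} (hq : ((d : ℝ) + 1) / d < q) (M : ℕ) {R S : ℝ} (hR : 0 < R)
    (hS : 0 < S) :
    (M * (R ^ d * om d) + R ^ d / S * S) ^ (q - 1) * ((R ^ d * om d) *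
      (d * (2 * (d * (q - 1)) / (d * (q - 1) - 1)) *
        (((R ^ d / S) ^ ((d : ℝ)⁻¹)) ^ (1 - d * (q - 1))) * S)) ≤
      Cst d q * (1 + M) ^ (q - 1) * R ^ (d + 1) * S ^ (q - 1 / d) := by
  obtain ⟨hd0, hq1, hqd, hr, hs, hq2⟩ := exp_facts hd hq
  have hom := om_pos (d := d)
  have hc0 : 0 < 2 * (d * (q - 1)) / (d * (q - 1) - 1) := div_pos (by linarith) (by linarith)
  set c0 := 2 * (d * (q - 1)) / (d * (q - 1) - 1) with hc0def
  have hM0 : (0 : ℝ) ≤ M := Nat.cast_nonneg _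
  have hRd : 0 < R ^ d := by positivity
  have e1 : (M * (R ^ d * om d) + R ^ d / S * S : ℝ) ≤ ((1 + om d) * (1 + M)) * R ^ d := by
    rw [div_mul_cancel₀ _ hS.ne']
    nlinarith [mul_nonneg hM0 hRd.le, mul_pos hom hRd, mul_nonneg hom.le (mul_nonneg hM0 hRd.le)]
  have e2 : (M * (R ^ d * om d) + R ^ d / S * S : ℝ) ^ (q - 1) ≤
      (1 + om d) ^ (q - 1) * (1 + M) ^ (q - 1) * (R ^ d) ^ (q - 1) := by
    rw [← Real.mul_rpow (by positivity) (by positivity), ← Real.mul_rpow (by positivity) (by positivity)]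
    exact Real.rpow_le_rpow (by positivity) e1 (by linarith)
  have e3 : ((R ^ d / S) ^ ((d : ℝ)⁻¹)) ^ (1 - d * (q - 1)) * S * ((R ^ d) ^ (q - 1) * R ^ d) =
      R ^ (d + 1) * S ^ (q - 1 / d) := by
    rw [← Real.rpow_mul (by positivity), Real.div_rpow hRd.le hS.le]
    have f1 : (R ^ d : ℝ) = R ^ (d : ℝ) := (Real.rpow_natCast R d).symm
    have f2 : (R ^ (d + 1) : ℝ) = R ^ ((d : ℝ) + 1) := by
      rw [← Real.rpow_natCast R (d + 1)]
      push_cast
      rfl
    rw [f1, f2]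
    rw [← Real.rpow_mul hR.le, ← Real.rpow_mul hR.le]
    have g1 : S ^ (q - 1 / d) = S * (S ^ ((d : ℝ)⁻¹ * (1 - d * (q - 1))))⁻¹ := by
      rw [← Real.rpow_neg hS.le]
      nth_rewrite 2 [← Real.rpow_one S]
      rw [← Real.rpow_add hS]
      congr 1
      field_simp
      ring
    have g2 : R ^ ((d : ℝ) + 1) = R ^ ((d : ℝ) * ((d : ℝ)⁻¹ * (1 - d * (q - 1)))) *
        (R ^ ((d : ℝ) * (q - 1)) * R ^ (d : ℝ)) := by
      rw [← Real.rpow_add hR, ← Real.rpow_add hR]
      congr 1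
      field_simp
      ring
    rw [g1, g2]
    field_simp
  calc (M * (R ^ d * om d) + R ^ d / S * S) ^ (q - 1) * ((R ^ d * om d) *
      (d * c0 * (((R ^ d / S) ^ ((d : ℝ)⁻¹)) ^ (1 - d * (q - 1))) * S))
      ≤ ((1 + om d) ^ (q - 1) * (1 + M) ^ (q - 1) * (R ^ d) ^ (q - 1)) * ((R ^ d * om d) *
      (d * c0 * (((R ^ d / S) ^ ((d : ℝ)⁻¹)) ^ (1 - d * (q - 1))) * S)) := by
        gcongr
    _ = ((1 + om d) ^ (q - 1) * om d * d * c0) * (1 + M) ^ (q - 1) *
        (((R ^ d / S) ^ ((d : ℝ)⁻¹)) ^ (1 - d * (q - 1)) * S * ((R ^ d) ^ (q - 1) * R ^ d)) := by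
        ring
    _ = Cst d q * (1 + M) ^ (q - 1) * R ^ (d + 1) * S ^ (q - 1 / d) := by
        rw [e3, Cst]
        ring

/-- **The strong type estimate for good families.** -/
theorem Good.strong (hd : 1 ≤ d) {q : ℝ} (hq : ((d : ℝ) + 1) / d < q) {M : ℕ} {T : Set ℝ}
    (hT : MeasurableSet T) {P : ℕ → Set (Vec d)} {b b₀ : Vec d → Vec d}
    {b' : Vec d → Vec d →L[ℝ] Vec d} (h : Good M T P b b₀ b') {R : ℝ} (hR : 0 < R)
    {f : Vec d → ℝ≥0∞} (hf : Measurable f) :
    ∫⁻ t in T, ∫⁻ x : Vec d,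
        (∫⁻ v in ⋃ k, P k, Pool.Agent.H810R3.Tub.ker b₀ R t x v * f v) ^ q ≤
      ENNReal.ofReal (Cst d q * (1 + M) ^ (q - 1) * R ^ (d + 1)) *
        (∫⁻ v in ⋃ k, P k, f v ^ (q * d / (q * d - 1))) ^ (q - 1 / d) := by
  classical
  obtain ⟨hd0, hq1, hqd, hr, hs, hq2⟩ := exp_facts hd hq
  have hom := om_pos (d := d)
  have hq0 : 0 < q := by linarith
  set s : ℝ := q * d / (q * d - 1) with hsdef
  have hUm : MeasurableSet (⋃ k, P k) := MeasurableSet.iUnion h.meas
  set U := ⋃ k, P k with hU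
  set S := ∫⁻ v in U, f v ^ s with hSdef
  have hpos : 0 < Cst d q * (1 + M) ^ (q - 1) * R ^ (d + 1) := by
    have := Cst_pos hd hq
    positivity
  have hA0 : ENNReal.ofReal (Cst d q * (1 + M) ^ (q - 1) * R ^ (d + 1)) ≠ 0 := by
    rw [ne_eq, ENNReal.ofReal_eq_zero, not_le]
    exact hpos
  have hfs : Measurable (fun v => f v ^ s) := hf.pow_const _
  -- the trivial cases
  rcases eq_or_ne S ∞ with hSt | hSt
  · rw [hSt, ENNReal.top_rpow_of_pos hq2, ENNReal.mul_top hA0]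
    exact le_top
  rcases eq_or_ne S 0 with hS0 | hS0
  · have h1 : ∀ᵐ v ∂(volume.restrict U), f v = 0 := by
      have := (lintegral_eq_zero_iff hfs).1 hS0
      filter_upwards [this] with v hv
      have hv' : f v ^ s = 0 := hv
      rcases (ENNReal.rpow_eq_zero_iff.1 hv') with ⟨h2, _⟩ | ⟨_, h2⟩
      · exact h2
      · linarith
    have h2 : ∀ (t : ℝ) (x : Vec d),
        ∫⁻ v in U, Pool.Agent.H810R3.Tub.ker b₀ R t x v * f v = 0 := by
      intro t x
      have : ∫⁻ v in U, Pool.Agent.H810R3.Tub.ker b₀ R t x v * f v = ∫⁻ v in U, 0 := by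
        apply lintegral_congr_ae
        filter_upwards [h1] with v hv
        rw [hv, mul_zero]
      rw [this, lintegral_zero]
    simp only [h2]
    rw [ENNReal.zero_rpow_of_pos hq0]
    simp
  -- the main case
  have hfin : ∀ᵐ v ∂(volume.restrict U), f v < ∞ := by
    have := ae_lt_top hfs hSt
    filter_upwards [this] with v hv
    by_contra hcon
    rw [not_lt, top_le_iff] at hcon
    rw [hcon, ENNReal.top_rpow_of_pos hs] at hv
    exact lt_irrefl _ hv
  set V : Set (Vec d) := {v | f v ≠ 0 ∧ f v ≠ ∞} with hV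
  have hVm : MeasurableSet V :=
    (hf (measurableSet_singleton (0 : ℝ≥0∞)).compl).inter (hf (measurableSet_singleton ∞).compl)
  have h' := h.inter hVm
  have hU' : (⋃ k, P k ∩ V) = U ∩ V := (iUnion_inter _ _).symm
  -- restriction to `U ∩ V`
  have hres : ∀ (G : Vec d → ℝ≥0∞), (∀ v, f v = 0 → G v = 0) →
      ∫⁻ v in U ∩ V, G v = ∫⁻ v in U, G v := by
    intro G hG
    rw [inter_comm, ← Measure.restrict_restrict hVm, ← lintegral_indicator hVm]
    apply lintegral_congr_ae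
    filter_upwards [hfin] with v hv
    by_cases hvV : v ∈ V
    · rw [indicator_of_mem hvV]
    · rw [indicator_of_notMem hvV]
      have : f v = 0 := by
        by_contra h0
        exact hvV ⟨h0, hv.ne⟩
      exact (hG v this).symm
  set Sr : ℝ := S.toReal with hSr
  have hSr0 : 0 < Sr := ENNReal.toReal_pos hS0 hSt
  have hSofR : ENNReal.ofReal Sr = S := ENNReal.ofReal_toReal hSt
  set c : ℝ := R ^ d / Sr with hc
  have hc0 : 0 < c := by positivity
  set τ : Vec d → ℝ := fun v => if f v ≠ 0 ∧ f v ≠ ∞ then c * (f v).toReal ^ s else 1 with hτ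
  have hτm : Measurable τ := by
    apply Measurable.ite hVm _ measurable_const
    exact (hf.ennreal_toReal.pow_const s).const_mul c
  have hτ0 : ∀ v, 0 < τ v := by
    intro v
    simp only [hτ]
    split_ifs with h1
    · have : 0 < (f v).toReal := ENNReal.toReal_pos h1.1 h1.2
      positivity
    · exact one_pos
  have hτV : ∀ v ∈ V, τ v = c * (f v).toReal ^ s := by
    intro v hv
    exact if_pos (show f v ≠ 0 ∧ f v ≠ ∞ from hv)
  have hcore := h'.core hd hT R hr hτm hτ0 hf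
  rw [hU', sub_add_cancel] at hcore
  have hUVm : MeasurableSet (U ∩ V) := hUm.inter hVm
  -- left side
  have hL : ∀ t x, ∫⁻ v in U ∩ V, Pool.Agent.H810R3.Tub.ker b₀ R t x v * f v =
      ∫⁻ v in U, Pool.Agent.H810R3.Tub.ker b₀ R t x v * f v :=
    fun t x => hres _ (fun v hv => by rw [hv, mul_zero])
  simp only [hL] at hcore
  -- the integral of `τ`
  have hI1 : ∫⁻ v in U ∩ V, ENNReal.ofReal (τ v) = ENNReal.ofReal (c * Sr) := by
    have e1 : ∫⁻ v in U ∩ V, ENNReal.ofReal (τ v) = ∫⁻ v in U ∩ V, ENNReal.ofReal c * f v ^ s := by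
      refine setLIntegral_congr_fun hUVm fun v hv => ?_
      show ENNReal.ofReal (τ v) = ENNReal.ofReal c * f v ^ s
      rw [hτV v hv.2, ENNReal.ofReal_mul hc0.le, ← ENNReal.ofReal_rpow_of_pos
        (ENNReal.toReal_pos hv.2.1 hv.2.2), ENNReal.ofReal_toReal hv.2.2]
    rw [e1, hres _ (fun v hv => by rw [hv, ENNReal.zero_rpow_of_pos hs, mul_zero]),
      lintegral_const_mul _ hfs, ← hSdef, ENNReal.ofReal_mul hc0.le, hSofR]
  -- the other integral
  set c1 : ℝ := 2 * (d * (q - 1)) / (d * (q - 1) - 1) with hc1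
  have hc10 : 0 < c1 := div_pos (by linarith) (by linarith)
  set c2 : ℝ := (c ^ ((d : ℝ)⁻¹)) ^ (1 - d * (q - 1)) with hc2
  have hc20 : 0 < c2 := by positivity
  have hI2 : ∫⁻ v in U ∩ V, f v ^ q * (d * ENNReal.ofReal (c1 *
      (τ v ^ ((d : ℝ)⁻¹)) ^ (1 - d * (q - 1)))) = ENNReal.ofReal (d * c1 * c2 * Sr) := by
    have e1 : ∫⁻ v in U ∩ V, f v ^ q * (d * ENNReal.ofReal (c1 *
      (τ v ^ ((d : ℝ)⁻¹)) ^ (1 - d * (q - 1)))) =
        ∫⁻ v in U ∩ V, ENNReal.ofReal (d * c1 * c2) * f v ^ s := by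
      refine setLIntegral_congr_fun hUVm fun v hv => ?_
      show f v ^ q * (d * ENNReal.ofReal (c1 * (τ v ^ ((d : ℝ)⁻¹)) ^ (1 - d * (q - 1)))) =
        ENNReal.ofReal (d * c1 * c2) * f v ^ s
      have hp := ENNReal.toReal_pos hv.2.1 hv.2.2
      rw [hτV v hv.2]
      have hfv : f v = ENNReal.ofReal (f v).toReal := (ENNReal.ofReal_toReal hv.2.2).symm
      generalize (f v).toReal = a at hp hfv
      rw [hfv, ENNReal.ofReal_rpow_of_pos hp, ENNReal.ofReal_rpow_of_pos hp,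
        ← ENNReal.ofReal_natCast d, ← ENNReal.ofReal_mul (Nat.cast_nonneg _),
        ← ENNReal.ofReal_mul (by positivity), ← ENNReal.ofReal_mul (by positivity)]
      congr 1
      have e2 : ((c * a ^ s) ^ ((d : ℝ)⁻¹)) ^ (1 - d * (q - 1)) =
          c2 * a ^ (s * ((d : ℝ)⁻¹) * (1 - d * (q - 1))) := by
        rw [Real.mul_rpow hc0.le (by positivity), Real.mul_rpow (by positivity) (by positivity),
          ← Real.rpow_mul hp.le, ← Real.rpow_mul hp.le]
      have e3 : a ^ s = a ^ q * a ^ (s * ((d : ℝ)⁻¹) * (1 - d * (q - 1))) := by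
        rw [← Real.rpow_add hp]
        congr 1
        rw [hsdef]
        have : q * d - 1 ≠ 0 := by linarith
        field_simp
        ring
      rw [e2, e3]
      ring
    rw [e1, hres _ (fun v hv => by rw [hv, ENNReal.zero_rpow_of_pos hs, mul_zero]),
      lintegral_const_mul _ hfs, ← hSdef, ENNReal.ofReal_mul (p := d * c1 * c2) (by positivity), hSofR]
  rw [hI1, hI2, vol_closedBall hR] at hcore
  refine hcore.trans ?_
  have hM0 : (0 : ℝ) ≤ M := Nat.cast_nonneg _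
  rw [← ENNReal.ofReal_natCast M, ← ENNReal.ofReal_mul hM0,
    ← ENNReal.ofReal_add (by positivity) (by positivity),
    ENNReal.ofReal_rpow_of_nonneg (by positivity) (by linarith),
    ← ENNReal.ofReal_mul (by positivity), ← ENNReal.ofReal_mul (by positivity)]
  rw [← hSofR, ENNReal.ofReal_rpow_of_pos hSr0, ← ENNReal.ofReal_mul hpos.le]
  apply ENNReal.ofReal_le_ofReal
  exact const_le hd hq M hR hSr0

end Pool.Agent.TH221.Rough
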