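import Pool.Agent.TH221.Rough.Family

set_option autoImplicit false

/-!
The tube inequality for rough families.
-/

open MeasureTheory Set Filter Topology ENNReal NNReal Metric

namespace Pool.Agent.TH221.Rough

open Pool.Agent.H803R2.Kak
open Pool.Agent.H810R3.Tub (Vec Space tube dir dir_sub_le tube_eq tube_closed om om_pos vol_closedBall vol_ball)
open Pool.Agent.H805R3.Kk (LipPieces OverlapLE SectionMonotone)

variable {d : ℕ}

/-- The sum of the weighted indicators. -/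
noncomputable def Fr {ι : Type} [Fintype ι] (δ : ℝ) (v β : ι → Vec d) (s a : ι → ℝ)
    (y : Space d) : ℝ :=
  ∑ i, (tube δ (dir (v i)) (WithLp.toLp 2 (β i + s i • v i, s i))).indicator (fun _ => a i) y

theorem Fr_measurable {ι : Type} [Fintype ι] (δ : ℝ) (v β : ι → Vec d) (s a : ι → ℝ) :
    Measurable (Fr δ v β s a) := by
  unfold Fr
  apply Finset.measurable_sum
  intro i _
  exact measurable_const.indicator (tube_closed _ _ _).measurableSet

theorem enorm_Fr_le {ι : Type} [Fintype ι] (δ : ℝ) (v β : ι → Vec d) (s a : ι → ℝ) (x : Vec d)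
    (t : ℝ) : ‖Fr δ v β s a (WithLp.toLp 2 (x, t))‖ₑ ≤ Fw δ v β s a x t := by
  unfold Fr Fw
  refine (enorm_sum_le _ _).trans (Finset.sum_le_sum fun i _ => ?_)
  by_cases hm : (WithLp.toLp 2 (x, t) : Space d) ∈ tube δ (dir (v i))
      (WithLp.toLp 2 (β i + s i • v i, s i))
  · rw [indicator_of_mem hm, indicator_of_mem hm]
  · rw [indicator_of_notMem hm, indicator_of_notMem hm]
    simp

/-- Fubini for functions on the part of space over the heights `T`. -/
theorem fubini_T {T : Set ℝ} (hT : MeasurableSet T) {F : Space d → ℝ≥0∞} (hF : Measurable F) :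
    ∫⁻ y in {y : Space d | (WithLp.ofLp y).2 ∈ T}, F y =
      ∫⁻ t in T, ∫⁻ x : Vec d, F (WithLp.toLp 2 (x, t)) := by
  have hmp := WithLp.volume_preserving_toLp (Vec d) ℝ
  have hs : MeasurableSet {y : Space d | (WithLp.ofLp y).2 ∈ T} := by
    have : Measurable (fun y : Space d => (WithLp.ofLp y).2) :=
      measurable_snd.comp (WithLp.volume_preserving_ofLp (Vec d) ℝ).measurable
    exact this hT
  rw [← hmp.setLIntegral_comp_preimage hs hF]
  have e : (WithLp.toLp 2 : Vec d × ℝ → Space d) ⁻¹' {y : Space d | (WithLp.ofLp y).2 ∈ T} =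
      univ ×ˢ T := by
    ext p
    simp
  rw [e, Measure.volume_eq_prod, ← Measure.prod_restrict, Measure.restrict_univ]
  exact lintegral_prod_symm (fun p : Vec d × ℝ => F (WithLp.toLp 2 p))
    (hF.comp hmp.measurable).aemeasurable

/-- The integral form of the tube inequality. -/
theorem HasGood.tubes_int (hd : 1 ≤ d) {q : ℝ} (hq : ((d : ℝ) + 1) / d < q) {M : ℕ} {T : Set ℝ}
    (hT : MeasurableSet T) {B : Set (Vec d)} {g : Vec d → Vec d} (h : HasGood M T B g)
    {K S : ℝ≥0} {θ δ : ℝ} (hθ : 0 < θ) (hδ : 0 < δ) (hδ1 : δ < 1) {ι : Type} [Fintype ι]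
    (v β : ι → Vec d) (s a : ι → ℝ) (hv : ∀ i, ‖v i‖ ≤ 1) (hs : ∀ i, |s i| ≤ S)
    (hsep : ∀ i j, i ≠ j → δ ≤ ‖v i - v j‖)
    (hE : ∀ i, ENNReal.ofReal θ * volume (ball (v i) (δ / 2)) ≤
      volume {w | w ∈ B ∧ ‖w - v i‖ < δ / 2 ∧ ‖β i - g w‖ ≤ K * δ}) :
    ∫⁻ t in T, ∫⁻ x : Vec d, Fw δ v β s a x t ^ q ≤
      ENNReal.ofReal (Cst d q * (1 + M) ^ (q - 1) * ((4 + K + S) * δ) ^ (d + 1) *
        (((δ / 2) ^ d * om d) ^ (-(1 / (d : ℝ))) * θ ^ (-(1 / (d : ℝ))) *
          (∑ i, |a i| ^ (q * d / (q * d - 1))) ^ (q - 1 / d))) := by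
  classical
  obtain ⟨hd0, hq1, hqd, hr, hs0, hq2⟩ := exp_facts hd hq
  have hom := om_pos (d := d)
  obtain ⟨P, b₀, b', hg, hPB, hae⟩ := h
  set U := ⋃ k, P k with hU
  have hUm : MeasurableSet U := MeasurableSet.iUnion hg.meas
  set E : ι → Set (Vec d) := fun i => {w | w ∈ U ∧ (‖w - v i‖ < δ / 2 ∧ ‖β i - b₀ w‖ ≤ K * δ)}
    with hEdef
  have hEm : ∀ i, MeasurableSet (E i) := by
    intro i
    have h1 : MeasurableSet {w : Vec d | ‖w - v i‖ < δ / 2} :=
      measurableSet_lt (by fun_prop) measurable_const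
    have h2 : MeasurableSet {w : Vec d | ‖β i - b₀ w‖ ≤ K * δ} :=
      measurableSet_le (measurable_const.sub hg.mb₀).norm measurable_const
    exact hUm.inter (h1.inter h2)
  set g0 : ℝ := (δ / 2) ^ d * om d with hg0
  have hg00 : 0 < g0 := by positivity
  have hc : volume (ball (0 : Vec d) (δ / 2)) = ENNReal.ofReal g0 := vol_ball hd (by linarith)
  have hEθ : ∀ i, ENNReal.ofReal (θ * g0) ≤ volume (E i) := by
    intro i
    have h1 := hE i
    rw [Measure.addHaar_ball_center volume (v i) (δ / 2), hc, ← ENNReal.ofReal_mul hθ.le] at h1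
    rw [measure_congr (set_ae hg hPB hae (fun w y => ‖w - v i‖ < δ / 2 ∧ ‖β i - y‖ ≤ K * δ))] at h1
    exact h1
  have hE0 : ∀ i, volume (E i) ≠ 0 := by
    intro i h0
    have h1 := hEθ i
    rw [h0, nonpos_iff_eq_zero, ENNReal.ofReal_eq_zero] at h1
    have : 0 < θ * g0 := by positivity
    linarith
  have hEt : ∀ i, volume (E i) ≠ ∞ := by
    intro i
    refine ne_top_of_le_ne_top (measure_ball_lt_top (μ := (volume : Measure (Vec d)))
      (x := v i) (r := δ / 2)).ne (measure_mono ?_)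
    intro w hw
    rw [mem_ball, dist_eq_norm]
    exact hw.2.1
  set A : ι → ℝ≥0∞ := fun i => ‖a i‖ₑ * (volume (ball (0 : Vec d) (δ / 2)) / volume (E i)) with hA
  set f : Vec d → ℝ≥0∞ := fun w => ∑ i, (E i).indicator (fun _ => A i) w with hf
  have hfm : Measurable f :=
    Finset.measurable_sum _ fun i _ => measurable_const.indicator (hEm i)
  set e : ℝ := q * d / (q * d - 1) with he
  set R : ℝ := (4 + K + S) * δ with hR
  have hK0 : (0 : ℝ) ≤ K := K.2
  have hS0 : (0 : ℝ) ≤ S := S.2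
  have hR0 : 0 < R := by positivity
  have hstrong := hg.strong hd hq hT hR0 hfm
  rw [← hU, ← he] at hstrong
  -- the left side
  have hL : (∫⁻ t in T, ∫⁻ x : Vec d, Fw δ v β s a x t ^ q) * ENNReal.ofReal (g0 ^ q) ≤
      ∫⁻ t in T, ∫⁻ x : Vec d, (∫⁻ w in U, Pool.Agent.H810R3.Tub.ker b₀ R t x w * f w) ^ q := by
    rw [← lintegral_mul_const' _ _ ENNReal.ofReal_ne_top]
    refine lintegral_mono fun t => ?_
    simp only
    rw [← lintegral_mul_const' _ _ ENNReal.ofReal_ne_top]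
    refine lintegral_mono fun x => ?_
    simp only
    have h1 := Fw_le (K := K) (S := S) hg.mb₀ hδ hδ1 v β s a hv hs (U := U) E hEm
      (fun i w hw => hw.1) (fun i w hw => hw.2) hE0 x t
    have h2 : ENNReal.ofReal (g0 ^ q) = (ENNReal.ofReal g0) ^ q :=
      (ENNReal.ofReal_rpow_of_pos hg00).symm
    rw [h2, ← ENNReal.mul_rpow_of_nonneg _ _ (by linarith), ← hc]
    exact ENNReal.rpow_le_rpow h1 (by linarith)
  -- the right side
  have hdisj : ∀ w i j, w ∈ E i → w ∈ E j → i = j := by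
    intro w i j hi hj
    exact disj_balls hsep hi.2.1 hj.2.1
  have hfe : ∀ w, f w ^ e = ∑ i, (E i).indicator (fun _ => A i ^ e) w := by
    intro w
    by_cases hw : ∃ i, w ∈ E i
    · obtain ⟨i, hi⟩ := hw
      have hne : ∀ j, j ≠ i → w ∉ E j := fun j hj hjE => hj (hdisj w j i hjE hi)
      have e1 : f w = A i := by
        show ∑ i, (E i).indicator (fun _ => A i) w = A i
        rw [Finset.sum_eq_single i]
        · rw [indicator_of_mem hi]
        · intro j _ hj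
          rw [indicator_of_notMem (hne j hj)]
        · intro h; exact absurd (Finset.mem_univ i) h
      rw [e1, Finset.sum_eq_single i]
      · rw [indicator_of_mem hi]
      · intro j _ hj
        rw [indicator_of_notMem (hne j hj)]
      · intro h; exact absurd (Finset.mem_univ i) h
    · have e1 : f w = 0 := by
        show ∑ i, (E i).indicator (fun _ => A i) w = 0
        refine Finset.sum_eq_zero fun i _ => ?_
        rw [indicator_of_notMem (fun h => hw ⟨i, h⟩)]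
      rw [e1, ENNReal.zero_rpow_of_pos hs0]
      symm
      refine Finset.sum_eq_zero fun i _ => ?_
      rw [indicator_of_notMem (fun h => hw ⟨i, h⟩)]
  have hterm : ∀ i, A i ^ e * volume (E i) ≤ ENNReal.ofReal (g0 * θ ^ (1 - e) * |a i| ^ e) := by
    intro i
    set m : ℝ := (volume (E i)).toReal with hm
    have hm0 : 0 < m := ENNReal.toReal_pos (hE0 i) (hEt i)
    have hvm : volume (E i) = ENNReal.ofReal m := (ENNReal.ofReal_toReal (hEt i)).symm
    have hmθ : θ * g0 ≤ m := by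
      have h1 := hEθ i
      rw [hvm] at h1
      exact (ENNReal.ofReal_le_ofReal_iff hm0.le).1 h1
    have hAi : A i = ENNReal.ofReal (|a i| * (g0 / m)) := by
      simp only [hA]
      rw [hc, hvm, ← ENNReal.ofReal_div_of_pos hm0, Real.enorm_eq_ofReal_abs,
        ← ENNReal.ofReal_mul (abs_nonneg _)]
    rw [hAi, hvm, ENNReal.ofReal_rpow_of_nonneg (by positivity) hs0.le,
      ← ENNReal.ofReal_mul (by positivity)]
    apply ENNReal.ofReal_le_ofReal
    have he1 : 1 - e ≤ 0 := by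
      rw [he, sub_nonpos, le_div_iff₀ (by linarith)]
      linarith
    have h1 : m ^ (1 - e) ≤ (θ * g0) ^ (1 - e) :=
      Real.rpow_le_rpow_of_nonpos (by positivity) hmθ he1
    have h2 : g0 ^ e * g0 ^ (1 - e) = g0 := by
      rw [← Real.rpow_add hg00]
      have : e + (1 - e) = 1 := by ring
      rw [this, Real.rpow_one]
    have h3 : m ^ (1 - e) = m / m ^ e := by
      rw [Real.rpow_sub hm0, Real.rpow_one]
    calc (|a i| * (g0 / m)) ^ e * m = |a i| ^ e * (g0 ^ e * m ^ (1 - e)) := by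
          rw [Real.mul_rpow (abs_nonneg _) (by positivity), Real.div_rpow hg00.le hm0.le, h3]
          ring
      _ ≤ |a i| ^ e * (g0 ^ e * (θ * g0) ^ (1 - e)) := by gcongr
      _ = |a i| ^ e * ((g0 ^ e * g0 ^ (1 - e)) * θ ^ (1 - e)) := by
          rw [Real.mul_rpow hθ.le hg00.le]
          ring
      _ = g0 * θ ^ (1 - e) * |a i| ^ e := by
          rw [h2]
          ring
  set Sa : ℝ := ∑ i, |a i| ^ e with hSa
  have hSa0 : 0 ≤ Sa := Finset.sum_nonneg fun i _ => by positivity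
  have hRint : ∫⁻ w in U, f w ^ e ≤ ENNReal.ofReal (g0 * θ ^ (1 - e) * Sa) := by
    simp only [hfe]
    rw [lintegral_finsetSum _ (fun i _ => measurable_const.indicator (hEm i))]
    calc ∑ i, ∫⁻ w in U, (E i).indicator (fun _ => A i ^ e) w
        ≤ ∑ i, A i ^ e * volume (E i) := by
          refine Finset.sum_le_sum fun i _ => ?_
          rw [lintegral_indicator_const (hEm i)]
          exact mul_le_mul_right (Measure.restrict_apply_le _ _) _
      _ ≤ ∑ i, ENNReal.ofReal (g0 * θ ^ (1 - e) * |a i| ^ e) := Finset.sum_le_sum fun i _ => hterm i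
      _ = ENNReal.ofReal (g0 * θ ^ (1 - e) * Sa) := by
          rw [← ENNReal.ofReal_sum_of_nonneg (fun i _ => by positivity), hSa, Finset.mul_sum]
  have hCst := Cst_pos hd hq
  have hfin := (hL.trans hstrong).trans
    (mul_le_mul_right (ENNReal.rpow_le_rpow hRint hq2.le) _)
  have hG0 : ENNReal.ofReal (g0 ^ q) ≠ 0 := by
    rw [ne_eq, ENNReal.ofReal_eq_zero, not_le]
    exact Real.rpow_pos_of_pos hg00 _
  rw [ENNReal.ofReal_rpow_of_nonneg (by positivity) hq2.le,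
    ← ENNReal.ofReal_mul (by positivity)] at hfin
  have hval : Cst d q * (1 + M) ^ (q - 1) * R ^ (d + 1) * (g0 * θ ^ (1 - e) * Sa) ^ (q - 1 / d) =
      (Cst d q * (1 + M) ^ (q - 1) * R ^ (d + 1) *
        (g0 ^ (-(1 / (d : ℝ))) * θ ^ (-(1 / (d : ℝ))) * Sa ^ (q - 1 / d))) * g0 ^ q := by
    rw [Real.mul_rpow (by positivity) hSa0, Real.mul_rpow hg00.le (by positivity),
      ← Real.rpow_mul hθ.le]
    have f1 : (1 - e) * (q - 1 / d) = -(1 / (d : ℝ)) := by
      rw [he]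
      have : q * d - 1 ≠ 0 := by linarith
      field_simp
      ring
    have f2 : g0 ^ (q - 1 / (d : ℝ)) = g0 ^ (-(1 / (d : ℝ))) * g0 ^ q := by
      rw [← Real.rpow_add hg00]
      congr 1
      ring
    rw [f1, f2]
    ring
  rw [hval, ENNReal.ofReal_mul (by positivity)] at hfin
  exact (ENNReal.mul_le_mul_iff_left hG0 ENNReal.ofReal_ne_top).1 hfin

/-- **The tube inequality for rough families.** -/
theorem HasGood.tubes (hd : 1 ≤ d) {q : ℝ} (hq : ((d : ℝ) + 1) / d < q) : ∃ C : ℝ, 0 < C ∧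
    ∀ (M : ℕ) (T : Set ℝ) (B : Set (Vec d)) (g : Vec d → Vec d), MeasurableSet T →
    HasGood M T B g →
    ∀ (K S : ℝ≥0) (θ δ : ℝ), 0 < θ → 0 < δ → δ < 1 → ∀ (ι : Type) [Fintype ι]
    (v β : ι → Vec d) (s a : ι → ℝ), (∀ i, ‖v i‖ ≤ 1) → (∀ i, |s i| ≤ S) →
    (∀ i j, i ≠ j → δ ≤ ‖dir (v i) - dir (v j)‖) →
    (∀ i, ENNReal.ofReal θ * volume (ball (v i) (δ / 2)) ≤
      volume {w | w ∈ B ∧ ‖w - v i‖ < δ / 2 ∧ ‖β i - g w‖ ≤ K * δ}) →
    eLpNorm (fun y : Space d => ∑ i, (tube δ (dir (v i))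
        (WithLp.toLp 2 (β i + s i • v i, s i))).indicator (fun _ => a i) y) (ENNReal.ofReal q)
        (volume.restrict {y : Space d | (WithLp.ofLp y).2 ∈ T})
      ≤ ENNReal.ofReal (C * θ ^ (-(1 / (q * d))) * (1 + M) ^ (1 - 1 / q) *
          (1 + K + S) ^ ((d + 1) / q) * δ ^ (d / q) *
          (∑ i, |a i| ^ (q * d / (q * d - 1))) ^ (1 - 1 / (q * d))) := by
  obtain ⟨hd0, hq1, hqd, hr, hs0, hq2⟩ := exp_facts hd hq
  have hom := om_pos (d := d)
  have hCst := Cst_pos hd hq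
  have hq0 : 0 < q := by linarith
  refine ⟨(Cst d q * 4 ^ (d + 1) * ((1 / 2) ^ d * om d) ^ (-(1 / (d : ℝ)))) ^ (1 / q),
    by positivity, ?_⟩
  intro M T B g hT h K S θ δ hθ hδ hδ1 ι _ v β s a hv hs hsep hE
  have hK0 : (0 : ℝ) ≤ K := K.2
  have hS0 : (0 : ℝ) ≤ S := S.2
  have hsep' : ∀ i j, i ≠ j → δ ≤ ‖v i - v j‖ := fun i j hij => (hsep i j hij).trans (dir_sub_le _ _)
  have hint := h.tubes_int hd hq hT hθ hδ hδ1 v β s a hv hs hsep' hE
  set Sa : ℝ := ∑ i, |a i| ^ (q * d / (q * d - 1)) with hSa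
  have hSa0 : 0 ≤ Sa := Finset.sum_nonneg fun i _ => by positivity
  set D : ℝ := Cst d q * 4 ^ (d + 1) * ((1 / 2) ^ d * om d) ^ (-(1 / (d : ℝ))) with hD
  have hD0 : 0 < D := by positivity
  have hval : Cst d q * (1 + M) ^ (q - 1) * ((4 + K + S) * δ) ^ (d + 1) *
        (((δ / 2) ^ d * om d) ^ (-(1 / (d : ℝ))) * θ ^ (-(1 / (d : ℝ))) * Sa ^ (q - 1 / d)) ≤
      D * θ ^ (-(1 / (d : ℝ))) * (1 + M : ℝ) ^ (q - 1) * (1 + K + S : ℝ) ^ ((d : ℝ) + 1) * δ ^ (d : ℝ) *
        Sa ^ (q - 1 / d) := by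
    have e1 : ((4 + K + S) * δ : ℝ) ^ (d + 1) ≤ 4 ^ (d + 1) * (1 + K + S : ℝ) ^ ((d : ℝ) + 1) * δ ^ (d + 1) := by
      have h1 : (4 + K + S : ℝ) ≤ 4 * (1 + K + S) := by linarith
      have h2 : (1 + K + S : ℝ) ^ ((d : ℝ) + 1) = (1 + K + S : ℝ) ^ (d + 1) := by
        rw [← Real.rpow_natCast _ (d + 1)]
        push_cast
        rfl
      rw [h2, mul_pow, ← mul_pow 4]
      gcongr
    have e2 : (((δ / 2) ^ d * om d : ℝ)) ^ (-(1 / (d : ℝ))) =
        δ⁻¹ * ((1 / 2) ^ d * om d) ^ (-(1 / (d : ℝ))) := by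
      have h1 : ((δ / 2) ^ d * om d : ℝ) = δ ^ (d : ℝ) * ((1 / 2) ^ d * om d) := by
        rw [div_eq_mul_one_div, mul_pow, Real.rpow_natCast]
        ring
      rw [h1, Real.mul_rpow (by positivity) (by positivity), ← Real.rpow_mul hδ.le]
      have : (d : ℝ) * (-(1 / (d : ℝ))) = -1 := by field_simp
      rw [this, Real.rpow_neg_one]
    have e3 : δ ^ (d + 1) * δ⁻¹ = δ ^ (d : ℝ) := by
      rw [Real.rpow_natCast]
      field_simp
      ring
    calc Cst d q * (1 + M) ^ (q - 1) * ((4 + K + S) * δ) ^ (d + 1) *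
        (((δ / 2) ^ d * om d) ^ (-(1 / (d : ℝ))) * θ ^ (-(1 / (d : ℝ))) * Sa ^ (q - 1 / d))
        ≤ Cst d q * (1 + M) ^ (q - 1) * (4 ^ (d + 1) * (1 + K + S : ℝ) ^ ((d : ℝ) + 1) * δ ^ (d + 1)) *
        (((δ / 2) ^ d * om d) ^ (-(1 / (d : ℝ))) * θ ^ (-(1 / (d : ℝ))) * Sa ^ (q - 1 / d)) := by
          gcongr
      _ = D * θ ^ (-(1 / (d : ℝ))) * (1 + M : ℝ) ^ (q - 1) * (1 + K + S : ℝ) ^ ((d : ℝ) + 1) *
          (δ ^ (d + 1) * δ⁻¹) * Sa ^ (q - 1 / d) := by
          rw [e2, hD]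
          ring
      _ = _ := by rw [e3]
  have hint := hint.trans (ENNReal.ofReal_le_ofReal hval)
  have hp0 : ENNReal.ofReal q ≠ 0 := by
    rw [ne_eq, ENNReal.ofReal_eq_zero, not_le]
    exact hq0
  rw [eLpNorm_eq_lintegral_rpow_enorm_toReal hp0 ENNReal.ofReal_ne_top, ENNReal.toReal_ofReal hq0.le]
  have hle : ∫⁻ y in {y : Space d | (WithLp.ofLp y).2 ∈ T}, ‖Fr δ v β s a y‖ₑ ^ q ≤
      ∫⁻ t in T, ∫⁻ x : Vec d, Fw δ v β s a x t ^ q := by
    rw [fubini_T hT ((Fr_measurable δ v β s a).enorm.pow_const _)]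
    refine lintegral_mono fun t => lintegral_mono fun x => ?_
    exact ENNReal.rpow_le_rpow (enorm_Fr_le δ v β s a x t) hq0.le
  have hint := hle.trans hint
  calc (∫⁻ y in {y : Space d | (WithLp.ofLp y).2 ∈ T}, ‖Fr δ v β s a y‖ₑ ^ q) ^ (1 / q)
      ≤ (ENNReal.ofReal (D * θ ^ (-(1 / (d : ℝ))) * (1 + M : ℝ) ^ (q - 1) *
          (1 + K + S : ℝ) ^ ((d : ℝ) + 1) * δ ^ (d : ℝ) * Sa ^ (q - 1 / d))) ^ (1 / q) :=
        ENNReal.rpow_le_rpow hint (by positivity)
    _ = ENNReal.ofReal ((D * θ ^ (-(1 / (d : ℝ))) * (1 + M : ℝ) ^ (q - 1) *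
          (1 + K + S : ℝ) ^ ((d : ℝ) + 1) * δ ^ (d : ℝ) * Sa ^ (q - 1 / d)) ^ (1 / q)) :=
        ENNReal.ofReal_rpow_of_nonneg (by positivity) (by positivity)
    _ = _ := by
        congr 1
        rw [Real.mul_rpow (by positivity) (by positivity), Real.mul_rpow (by positivity) (by positivity),
          Real.mul_rpow (by positivity) (by positivity), Real.mul_rpow (by positivity) (by positivity),
          Real.mul_rpow hD0.le (by positivity),
          ← Real.rpow_mul hθ.le, ← Real.rpow_mul (by positivity), ← Real.rpow_mul (by positivity),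
          ← Real.rpow_mul hδ.le, ← Real.rpow_mul hSa0]
        have f1 : (q - 1) * (1 / q) = 1 - 1 / q := by field_simp
        have f2 : ((d : ℝ) + 1) * (1 / q) = (d + 1) / q := by ring
        have f3 : (d : ℝ) * (1 / q) = d / q := by ring
        have f4 : (q - 1 / d) * (1 / q) = 1 - 1 / (q * d) := by field_simp
        have f5 : -(1 / (d : ℝ)) * (1 / q) = -(1 / (q * d)) := by field_simp
        rw [f1, f2, f3, f4, f5]

end Pool.Agent.TH221.Rough
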